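import Pool.Agent.Helper12.GM.LibF

/-!
# CINV: the sectors are invariant under `c` (MP_ab9fec_gt)
-/

open scoped ENNReal UpperHalfPlane MatrixGroups Topology
open UpperHalfPlane Real Filter

namespace Pool.Agent.Helper12.GM

theorem CINV_step {Γ : Type} [Group Γ] (X : NFuchs Γ) (z : ℍ) :
    (X.M X.c • z).im = X.lam ^ 2 * z.im ∧ (X.M X.c • z).re = X.lam ^ 2 * z.re := by
  have hl : X.lam ≠ 0 := by
    have := X.one_lt
    positivity
  have h00 : (X.M X.c).1 0 0 = X.lam := by rw [X.Mc]; rfl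
  have h01 : (X.M X.c).1 0 1 = 0 := by rw [X.Mc]; rfl
  have h10 : (X.M X.c).1 1 0 = 0 := by rw [X.Mc]; rfl
  have h11 : (X.M X.c).1 1 1 = X.lam⁻¹ := by rw [X.Mc]; rfl
  rw [sl_im, sl_re, h00, h01, h10, h11]
  constructor <;> field_simp <;> ring

theorem CINV_zpow {Γ : Type} [Group Γ] (X : NFuchs Γ) (f : Γ → ℝ)
    (hf : ∀ y, f (X.c * y) = X.lam ^ 2 * f y) (k : ℤ) (x : Γ) :
    f (X.c ^ k * x) = (X.lam ^ 2) ^ k * f x := by
  have hl : X.lam ^ 2 ≠ 0 := by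
    have := X.one_lt
    positivity
  induction k using Int.induction_on with
  | zero => simp
  | succ n ih =>
    rw [zpow_add₀ hl, zpow_one, add_comm (n : ℤ) 1, zpow_add, zpow_one, mul_assoc, hf, ih]
    ring
  | pred n ih =>
    have h1 := hf (X.c ^ (-(n : ℤ) - 1) * x)
    rw [← mul_assoc, ← zpow_one_add] at h1
    have e : (1 + (-(n : ℤ) - 1)) = -(n : ℤ) := by ring
    rw [e, ih] at h1
    rw [zpow_sub_one₀ hl]
    refine mul_left_cancel₀ hl ?_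
    rw [← h1, mul_assoc _ (X.lam ^ 2)⁻¹, mul_left_comm, ← mul_assoc (X.lam ^ 2) (X.lam ^ 2)⁻¹,
      mul_inv_cancel₀ hl, one_mul]

theorem st_CINV : ST_CINV := by
  intro Γ _ X κ k x
  have h1 : (X.M (X.c ^ k * x) • (I : ℍ)).im = (X.lam ^ 2) ^ k * (X.M x • (I : ℍ)).im :=
    CINV_zpow X (fun y => (X.M y • (I : ℍ)).im)
      (fun y => by show (X.M (X.c * y) • (I : ℍ)).im = _; rw [X.toFuchs.act]; exact (CINV_step X _).1) k x
  have h2 : (X.M (X.c ^ k * x) • (I : ℍ)).re = (X.lam ^ 2) ^ k * (X.M x • (I : ℍ)).re :=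
    CINV_zpow X (fun y => (X.M y • (I : ℍ)).re)
      (fun y => by show (X.M (X.c * y) • (I : ℍ)).re = _; rw [X.toFuchs.act]; exact (CINV_step X _).2) k x
  have hpos : 0 < (X.lam ^ 2) ^ k := by
    have := X.one_lt
    positivity
  refine ⟨h1, h2, ?_, ?_, ?_⟩
  · show (X.M (X.c ^ k * x) • (I : ℍ)).re < -κ * (X.M (X.c ^ k * x) • (I : ℍ)).im ↔
      (X.M x • (I : ℍ)).re < -κ * (X.M x • (I : ℍ)).im
    rw [h1, h2, mul_left_comm, mul_lt_mul_iff_right₀ hpos]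
  · show κ * (X.M (X.c ^ k * x) • (I : ℍ)).im < (X.M (X.c ^ k * x) • (I : ℍ)).re ↔
      κ * (X.M x • (I : ℍ)).im < (X.M x • (I : ℍ)).re
    rw [h1, h2, mul_left_comm, mul_lt_mul_iff_right₀ hpos]
  · show |(X.M (X.c ^ k * x) • (I : ℍ)).re| ≤ κ * (X.M (X.c ^ k * x) • (I : ℍ)).im ↔
      |(X.M x • (I : ℍ)).re| ≤ κ * (X.M x • (I : ℍ)).im
    rw [h1, h2, abs_mul, abs_of_pos hpos, mul_left_comm, mul_le_mul_iff_right₀ hpos]

end Pool.Agent.Helper12.GM
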