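import Pool.Agent.Helper12.GM.LibF

/-!
# POSG: positive matrices move sectors (MP_ab9fec_gt)
-/

open scoped ENNReal UpperHalfPlane MatrixGroups Topology
open UpperHalfPlane Real Filter

namespace Pool.Agent.Helper12.GM

/-- the elementary inequality behind `POSG` -/
theorem POSG_core {p q r s κ x y : ℝ} (hp : 0 < p) (hq : 0 < q) (hr : 0 < r)
    (hdet : p * s - q * r = 1) (hκ : 0 ≤ κ) (hΘ : 2 * κ * (κ + 1) ≤ q * r) (hy : 0 < y)
    (hx : -κ * y ≤ x) :
    κ * y < p * r * (x ^ 2 + y ^ 2) + (p * s + q * r) * x + q * s := by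
  have hpr : 0 < p * r := mul_pos hp hr
  have hQ : 0 < q * r := mul_pos hq hr
  refine lt_of_mul_lt_mul_left ?_ hpr.le
  set X : ℝ := p * r * x with hX
  set t : ℝ := p * r * y with ht
  set Q : ℝ := q * r with hQd
  have htpos : 0 < t := mul_pos hpr hy
  have hXt : -κ * t ≤ X := by
    have := mul_le_mul_of_nonneg_left hx hpr.le
    rw [hX, ht]
    linarith
  have hps : p * s = 1 + Q := by linarith
  have e1 : p * r * (p * r * (x ^ 2 + y ^ 2) + (p * s + Q) * x + q * s) =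
      (X + Q) * (X + Q + 1) + t ^ 2 := by
    rw [hps]
    have : p * r * (q * s) = Q * (1 + Q) := by
      rw [← hps, hQd]; ring
    rw [mul_add, mul_add, this, hX, ht]
    ring
  have e2 : p * r * (κ * y) = κ * t := by rw [ht]; ring
  rw [e1, e2]
  have hκt : 0 ≤ κ * t := mul_nonneg hκ htpos.le
  rcases le_or_gt (κ * t) (Q / 2) with h | h
  · have h1 : Q / 2 ≤ X + Q := by linarith
    have h2 : Q / 2 * (Q / 2 + 1) ≤ (X + Q) * (X + Q + 1) := by
      apply mul_le_mul h1 (by linarith) (by positivity) (by linarith)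
    have h3 : 0 < Q / 2 * (Q / 2) := by positivity
    have h4 : 0 ≤ t ^ 2 := sq_nonneg t
    nlinarith
  · have hκ0 : 0 < κ := by
      rcases hκ.lt_or_eq with h0 | h0
      · exact h0
      · rw [← h0] at h
        linarith
    have h1 : κ * (κ + 1) < κ * t := by nlinarith
    have h2 : κ + 1 < t := lt_of_mul_lt_mul_left h1 hκ
    have h3 : (1 : ℝ) < t * (t - κ) := by nlinarith
    have h4 : -(1 / 4 : ℝ) ≤ (X + Q) * (X + Q + 1) := by nlinarith [sq_nonneg (X + Q + 1 / 2)]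
    nlinarith

/-- products of the entries of `M a` -/
theorem POSG_entries {Γ : Type} [Group Γ] {X : Fuchs Γ} {a : Γ} {p q r s : ℝ}
    (h : (X.M a).1 = !![p, q; r, s] ∨ (X.M a).1 = -!![p, q; r, s]) :
    (X.M a).1 0 0 * (X.M a).1 1 0 = p * r ∧ (X.M a).1 0 0 * (X.M a).1 1 1 = p * s ∧
    (X.M a).1 0 1 * (X.M a).1 1 0 = q * r ∧ (X.M a).1 0 1 * (X.M a).1 1 1 = q * s := by
  rcases h with h | h <;> rw [h] <;> simp

theorem POSG_det {Γ : Type} [Group Γ] {X : Fuchs Γ} {a : Γ} {p q r s : ℝ}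
    (h : (X.M a).1 = !![p, q; r, s] ∨ (X.M a).1 = -!![p, q; r, s]) :
    p * s - q * r = 1 := by
  have hdet := (X.M a).det_coe
  rw [Matrix.det_fin_two] at hdet
  obtain ⟨_, h2, h3, _⟩ := POSG_entries h
  rw [h2, h3] at hdet
  exact hdet

theorem POSG_inv {Γ : Type} [Group Γ] {X : Fuchs Γ} {a : Γ} {p q r s : ℝ}
    (h : (X.M a).1 = !![p, q; r, s] ∨ (X.M a).1 = -!![p, q; r, s]) :
    (X.M a⁻¹).1 = !![s, -q; -r, p] ∨ (X.M a⁻¹).1 = -!![s, -q; -r, p] := by
  have e1 : ∀ A : SL(2, ℝ), A.1 = !![p, q; r, s] → (A⁻¹).1 = !![s, -q; -r, p] := by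
    intro A hA
    rw [Matrix.SpecialLinearGroup.SL2_inv_expl A]
    ext i j
    fin_cases i <;> fin_cases j <;> simp [hA]
  have e2 : ∀ A : SL(2, ℝ), A.1 = -!![p, q; r, s] → (A⁻¹).1 = -!![s, -q; -r, p] := by
    intro A hA
    rw [Matrix.SpecialLinearGroup.SL2_inv_expl A]
    ext i j
    fin_cases i <;> fin_cases j <;> simp [hA]
  rcases X.M_inv a with h1 | h1 <;> rcases h with h2 | h2
  · left; rw [h1]; exact e1 _ h2
  · right; rw [h1]; exact e2 _ h2
  · right; rw [h1, Matrix.SpecialLinearGroup.coe_neg, e1 _ h2]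
  · left; rw [h1, Matrix.SpecialLinearGroup.coe_neg, e2 _ h2, neg_neg]

theorem st_POSG : ST_POSG := by
  intro Γ _ X κ Θ hκ hΘ0 hΘ a ha
  obtain ⟨p, q, r, s, hp, hq, hr, hs, hqr, hM⟩ := ha
  have hdet := POSG_det hM
  constructor
  · intro x hx
    have hx' : -κ * (X.M x • (I : ℍ)).im ≤ (X.M x • (I : ℍ)).re := not_lt.mp hx
    show κ * (X.M (a * x) • (I : ℍ)).im < (X.M (a * x) • (I : ℍ)).re
    rw [X.act, sl_im (X.M a) (X.M x • I), sl_re (X.M a) (X.M x • I)]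
    obtain ⟨h1, h2, h3, h4⟩ := POSG_entries hM
    rw [h1, h2, h3, h4, ← mul_div_assoc]
    refine div_lt_div_of_pos_right ?_ (sl_den_pos _ _)
    exact POSG_core hp hq hr hdet hκ (hΘ.trans hqr) (UpperHalfPlane.im_pos _) hx'
  · intro x hx
    have hx' : (X.M x • (I : ℍ)).re ≤ κ * (X.M x • (I : ℍ)).im := not_lt.mp hx
    show (X.M (a⁻¹ * x) • (I : ℍ)).re < -κ * (X.M (a⁻¹ * x) • (I : ℍ)).im
    rw [X.act, sl_im (X.M a⁻¹) (X.M x • I), sl_re (X.M a⁻¹) (X.M x • I)]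
    obtain ⟨h1, h2, h3, h4⟩ := POSG_entries (POSG_inv hM)
    rw [h1, h2, h3, h4, ← mul_div_assoc]
    refine div_lt_div_of_pos_right ?_ (sl_den_pos _ _)
    have hdet' : s * p - q * r = 1 := by linarith
    have key := POSG_core (x := -(X.M x • (I : ℍ)).re) hs hq hr hdet' hκ (hΘ.trans hqr)
      (UpperHalfPlane.im_pos (X.M x • (I : ℍ))) (by linarith)
    nlinarith

end Pool.Agent.Helper12.GM
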