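import Pool.Agent.Helper12.GM.Stmts

set_option autoImplicit false

/-! # FIB: the insertion map and its fibres -/

namespace Pool.Agent.Helper12.GM

/-- data of the insertion of `h` into `g` at depth `i` -/
structure FibDat {Γ : Type} [Group Γ] (Q : Geo Γ) (h g : Γ) (i : ℕ) (x f f' y : Γ) : Prop where
  eq : g = x * y
  lx : Q.L x ≤ i + Q.C
  ly : Q.L y ≤ Q.L g - i + Q.C
  hf : f ∈ Q.F
  hf' : f' ∈ Q.F
  c1 : Q.L x + Q.L h ≤ Q.L (x * f * h) + Q.C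
  c2 : Q.L (x * f * h) + Q.L y ≤ Q.L (x * f * h * f' * y) + Q.C

section

variable {Γ : Type} [Group Γ] {Q : Geo Γ} {h : Γ}

theorem fib_ex (Q : Geo Γ) (h g : Γ) (i : ℕ) (hi : (i : ℝ) ≤ Q.L g) :
    ∃ x f f' y, FibDat Q h g i x f f' y := by
  obtain ⟨x, h1, h2⟩ := Q.geod g i (by positivity) hi
  obtain ⟨f, hf, h3⟩ := Q.conn x h
  obtain ⟨f', hf', h4⟩ := Q.conn (x * f * h) (x⁻¹ * g)
  exact ⟨x, f, f', x⁻¹ * g, by group, h1, h2, hf, hf', h3, h4⟩

/-- length of the result of the insertion -/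
theorem fib_low {g x f f' y : Γ} {i : ℕ} (hd : FibDat Q h g i x f f' y) :
    Q.L g + Q.L h ≤ Q.L (x * f * h * f' * y) + 2 * Q.C := by
  have h1 := hd.c1
  have h2 := hd.c2
  have h3 := Q.mul x y
  rw [← hd.eq] at h3
  linarith

theorem fib_dist {Cf : ℝ} (hCf : ∀ f ∈ Q.F, Q.L f ≤ Cf) {g x f f' y : Γ} {i : ℕ}
    (hd : FibDat Q h g i x f f' y) :
    Q.L (x⁻¹ * (x * f * h * f' * y)) ≤ Q.L (x * f * h * f' * y) - i + (3 * Q.C + 2 * Cf) := by
  have h1 := fib_low hd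
  have h2 := hd.ly
  have e : x⁻¹ * (x * f * h * f' * y) = f * (h * (f' * y)) := by group
  rw [e]
  have h3 := Q.mul f (h * (f' * y))
  have h4 := Q.mul h (f' * y)
  have h5 := Q.mul f' y
  have h6 := hCf f hd.hf
  have h7 := hCf f' hd.hf'
  linarith

/-- two cutting points at the same depth are close -/
theorem fib_close {Cf : ℝ} (hCf : ∀ f ∈ Q.F, Q.L f ≤ Cf) {g' g₁ x₁ f₁ f₁' y₁ g₂ x₂ f₂ f₂' y₂ : Γ}
    {i : ℕ} (hd₁ : FibDat Q h g₁ i x₁ f₁ f₁' y₁) (hd₂ : FibDat Q h g₂ i x₂ f₂ f₂' y₂)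
    (h₁ : x₁ * f₁ * h * f₁' * y₁ = g') (h₂ : x₂ * f₂ * h * f₂' * y₂ = g') :
    Q.L (x₁⁻¹ * x₂) ≤ 5 * Q.C + 2 * Cf := by
  have a1 := fib_dist hCf hd₁
  have a2 := fib_dist hCf hd₂
  rw [h₁] at a1
  rw [h₂] at a2
  have h3 := Q.four 1 x₁ g' x₂
  rw [inv_one, one_mul, one_mul, one_mul] at h3
  have e : Q.L (g'⁻¹ * x₂) = Q.L (x₂⁻¹ * g') := by
    rw [← Q.inv (g'⁻¹ * x₂)]
    congr 1
    group
  rw [e] at h3
  have h4 := hd₁.lx
  have h5 := hd₂.lx
  have h6 : max (Q.L x₁ + Q.L (x₂⁻¹ * g')) (Q.L x₂ + Q.L (x₁⁻¹ * g')) ≤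
      Q.L g' + (4 * Q.C + 2 * Cf) := by
    apply max_le
    · linarith
    · linarith
  linarith

/-- if the depths differ by at least `L h` then `h` occurs on the geodesic of `g` -/
theorem fib_occ {Cf : ℝ} (hCf : ∀ f ∈ Q.F, Q.L f ≤ Cf) {g' g x f f' y g₂ x₂ f₂ f₂' y₂ : Γ}
    {i i₂ : ℕ} (hd : FibDat Q h g i x f f' y) (hd₂ : FibDat Q h g₂ i₂ x₂ f₂ f₂' y₂)
    (h₁ : x * f * h * f' * y = g') (h₂ : x₂ * f₂ * h * f₂' * y₂ = g')
    (hi : (i : ℝ) + Q.L h ≤ i₂) (hg : Q.L g₂ ≤ Q.L g + 2 * Q.C) :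
    Occ Q h (9 * Q.C + 4 * Cf) g := by
  have hf := hCf f hd.hf
  have hf' := hCf f' hd.hf'
  have hf₂ := hCf f₂ hd₂.hf
  have hf₂' := hCf f₂' hd₂.hf'
  have hlow := fib_low hd
  have hlow₂ := fib_low hd₂
  rw [h₁] at hlow
  rw [h₂] at hlow₂
  refine ⟨x * ((x * f * h * f')⁻¹ * (x₂ * f₂)), ?_⟩
  have e1 : h⁻¹ * (x * ((x * f * h * f')⁻¹ * (x₂ * f₂)))⁻¹ * g = f₂' * y₂ := by
    have e2 : x * f * h * f' * y = x₂ * f₂ * h * f₂' * y₂ := h₁.trans h₂.symm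
    have e3 : y = (x * f * h * f')⁻¹ * (x₂ * f₂ * h * f₂' * y₂) := by
      rw [← e2]
      group
    rw [hd.eq, e3]
    group
  rw [e1]
  have h3 := Q.four 1 (x * f * h * f') g' (x₂ * f₂)
  rw [inv_one, one_mul, one_mul, one_mul] at h3
  have e4 : Q.L (g'⁻¹ * (x₂ * f₂)) = Q.L (h * (f₂' * y₂)) := by
    rw [← Q.inv (g'⁻¹ * (x₂ * f₂))]
    congr 1
    rw [← h₂]
    group
  have e5 : Q.L ((x * f * h * f')⁻¹ * g') = Q.L y := by
    congr 1
    rw [← h₁]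
    group
  rw [e4, e5] at h3
  have b1 : Q.L (x * f * h * f') ≤ i + Q.C + Q.L h + 2 * Cf := by
    have := Q.mul (x * f * h) f'
    have := Q.mul (x * f) h
    have := Q.mul x f
    have := hd.lx
    linarith
  have b2 : Q.L (h * (f₂' * y₂)) ≤ Q.L h + Cf + Q.L g₂ - i₂ + Q.C := by
    have := Q.mul h (f₂' * y₂)
    have := Q.mul f₂' y₂
    have := hd₂.ly
    linarith
  have b3 : Q.L (x₂ * f₂) ≤ i₂ + Q.C + Cf := by
    have := Q.mul x₂ f₂
    have := hd₂.lx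
    linarith
  have b4 := hd.ly
  have hh := Q.nonneg h
  have hCf0 : 0 ≤ Cf := (Q.nonneg f).trans hf
  have h6 : max (Q.L (x * f * h * f') + Q.L (h * (f₂' * y₂))) (Q.L (x₂ * f₂) + Q.L y) ≤
      Q.L g' + (i₂ - i - Q.L h) + (4 * Q.C + 3 * Cf) := by
    apply max_le
    · linarith
    · linarith
  have b5 := Q.mul x ((x * f * h * f')⁻¹ * (x₂ * f₂))
  have b6 := hd.lx
  have b7 := Q.mul f₂' y₂
  have b8 := hd₂.ly
  linarith

end

theorem st_FIB : ST_FIB := by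
  intro Γ _ Q
  classical
  set Cf : ℝ := ∑ f ∈ Q.F, Q.L f with hCfd
  have hCf : ∀ f ∈ Q.F, Q.L f ≤ Cf := fun f hf =>
    Finset.single_le_sum (f := Q.L) (fun g _ => Q.nonneg g) hf
  have hCf0 : 0 ≤ Cf := Finset.sum_nonneg fun g _ => Q.nonneg g
  have hC := Q.one_le_C
  set B : Finset Γ := (Q.fin (5 * Q.C + 2 * Cf)).toFinset with hB
  refine ⟨3 * Q.C + 2 * Cf, 9 * Q.C + 4 * Cf, (B.card * (Q.F.card * Q.F.card) : ℕ), by positivity,
    by positivity, by positivity, fun h t ht => ?_⟩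
  have hex : ∀ (g : Γ) (i : ℕ), ∃ q : Γ × Γ × Γ × Γ, (i : ℝ) ≤ Q.L g →
      FibDat Q h g i q.1 q.2.1 q.2.2.1 q.2.2.2 := by
    intro g i
    by_cases hi : (i : ℝ) ≤ Q.L g
    · obtain ⟨x, f, f', y, hd⟩ := fib_ex Q h g i hi
      exact ⟨(x, f, f', y), fun _ => hd⟩
    · exact ⟨(1, 1, 1, 1), fun h' => absurd h' hi⟩
  choose q hq using hex
  refine ⟨fun g i => (q g i).1 * (q g i).2.1 * h * (q g i).2.2.1 * (q g i).2.2.2, ?_, ?_⟩
  · intro g i h1 h2 h3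
    have hd := hq g i (h3.trans h1)
    refine ⟨(q g i).1, (q g i).2.1, (q g i).2.2.1, (q g i).2.2.2, hd.eq, hd.hf, hd.hf', rfl,
      ?_, ?_, ?_, ?_, ?_⟩
    · have := hd.lx
      have := hd.ly
      linarith
    · have := Q.mul (q g i).1 (q g i).2.1
      have := hCf _ hd.hf
      have := hd.c1
      linarith
    · have := Q.mul (q g i).2.2.1 (q g i).2.2.2
      have := hCf _ hd.hf'
      have := hd.c2
      linarith
    · have := fib_low hd
      linarith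
    · have a1 := Q.mul ((q g i).1 * (q g i).2.1 * h * (q g i).2.2.1) (q g i).2.2.2
      have a2 := Q.mul ((q g i).1 * (q g i).2.1 * h) (q g i).2.2.1
      have a3 := Q.mul ((q g i).1 * (q g i).2.1) h
      have a4 := Q.mul (q g i).1 (q g i).2.1
      have a5 := hCf _ hd.hf
      have a6 := hCf _ hd.hf'
      have a7 := hd.lx
      have a8 := hd.ly
      simp only at a1 ⊢
      linarith
  · intro g'
    set P : Set (Γ × ℕ) := {p : Γ × ℕ | t - Q.C ≤ Q.L p.1 ∧ Q.L p.1 ≤ t + Q.C ∧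
      (p.2 : ℝ) ≤ t - Q.C ∧ ¬ Occ Q h (9 * Q.C + 4 * Cf) p.1 ∧
      (fun g i => (q g i).1 * (q g i).2.1 * h * (q g i).2.2.1 * (q g i).2.2.2) p.1 p.2 = g'}
      with hP
    have hdat : ∀ p ∈ P, FibDat Q h p.1 p.2 (q p.1 p.2).1 (q p.1 p.2).2.1 (q p.1 p.2).2.2.1
        (q p.1 p.2).2.2.2 := fun p hp => hq p.1 p.2 (hp.2.2.1.trans hp.1)
    have heq : ∀ p ∈ P, (q p.1 p.2).1 * (q p.1 p.2).2.1 * h * (q p.1 p.2).2.2.1 *
        (q p.1 p.2).2.2.2 = g' := fun p hp => hp.2.2.2.2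
    rcases P.eq_empty_or_nonempty with hem | hne
    · rw [hem, Set.ncard_empty]
      have := Q.nonneg h
      push_cast
      positivity
    -- the minimal depth
    have hmin : ∃ i₀ : ℕ, (∃ p ∈ P, p.2 = i₀) ∧ ∀ p ∈ P, i₀ ≤ p.2 := by
      have hex : ∃ i : ℕ, ∃ p ∈ P, p.2 = i := by
        obtain ⟨p, hp⟩ := hne
        exact ⟨p.2, p, hp, rfl⟩
      exact ⟨Nat.find hex, Nat.find_spec hex, fun p hp => Nat.find_min' hex ⟨p, hp, rfl⟩⟩
    obtain ⟨i₀, ⟨p₀, hp₀, hi₀⟩, hmin⟩ := hmin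
    have hmax : ∀ p ∈ P, (p.2 : ℝ) < i₀ + Q.L h := by
      intro p hp
      by_contra hc
      push Not at hc
      rw [← hi₀] at hc
      refine hp₀.2.2.2.1 (fib_occ hCf (hdat p₀ hp₀) (hdat p hp) (heq p₀ hp₀) (heq p hp) hc ?_)
      have := hp.2.1
      have := hp₀.1
      linarith
    -- reference points
    have href : ∀ i : ℕ, ∃ z : Γ, ∀ p ∈ P, p.2 = i → z⁻¹ * (q p.1 p.2).1 ∈ B := by
      intro i
      by_cases hi : ∃ p ∈ P, p.2 = i
      · obtain ⟨p, hp, rfl⟩ := hi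
        refine ⟨(q p.1 p.2).1, fun p' hp' hi' => ?_⟩
        rw [hB, Set.Finite.mem_toFinset]
        have hd' := hdat p' hp'
        have he' := heq p' hp'
        rw [hi'] at hd' he' ⊢
        exact fib_close hCf (hdat p hp) hd' (heq p hp) he'
      · exact ⟨1, fun p hp hpi => absurd ⟨p, hp, hpi⟩ hi⟩
    choose z hz using href
    set T : Finset (ℕ × (Γ × (Γ × Γ))) :=
      (Finset.Ico i₀ (i₀ + ⌈Q.L h⌉₊)) ×ˢ (B ×ˢ (Q.F ×ˢ Q.F)) with hT
    have hcard : P.ncard ≤ (T : Set (ℕ × (Γ × (Γ × Γ)))).ncard := by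
      apply Set.ncard_le_ncard_of_injOn (fun p => (p.2, ((z p.2)⁻¹ * (q p.1 p.2).1,
        ((q p.1 p.2).2.1, (q p.1 p.2).2.2.1))))
      · intro p hp
        rw [Finset.mem_coe, hT, Finset.mem_product, Finset.mem_product, Finset.mem_product,
          Finset.mem_Ico]
        refine ⟨⟨hmin p hp, ?_⟩, hz p.2 p hp rfl, (hdat p hp).hf, (hdat p hp).hf'⟩
        have h1 := hmax p hp
        have h2 : (p.2 : ℝ) < ((i₀ + ⌈Q.L h⌉₊ : ℕ) : ℝ) := by
          push_cast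
          have := Nat.le_ceil (Q.L h)
          linarith
        exact_mod_cast h2
      · intro p hp p' hp' hpp
        simp only [Prod.mk.injEq] at hpp
        obtain ⟨e1, e2, e3, e4⟩ := hpp
        have d := hdat p hp
        have d' := hdat p' hp'
        have s := heq p hp
        have s' := heq p' hp'
        rw [← e1] at e2
        have e5 : (q p.1 p.2).1 = (q p'.1 p'.2).1 := by
          rw [e1] at e2 ⊢
          exact mul_left_cancel e2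
        have e6 : (q p.1 p.2).2.2.2 = (q p'.1 p'.2).2.2.2 := by
          rw [← s', e3, e4, e5] at s
          exact mul_left_cancel s
        refine Prod.ext ?_ e1
        rw [d.eq, d'.eq, e5, e6]
    have hTc : (T.card : ℝ) ≤ (B.card * (Q.F.card * Q.F.card) : ℕ) * (Q.L h + 1) := by
      rw [hT, Finset.card_product, Finset.card_product, Finset.card_product, Nat.card_Ico,
        Nat.add_sub_cancel_left]
      have h1 := (Nat.ceil_lt_add_one (Q.nonneg h)).le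
      push_cast
      rw [mul_comm]
      gcongr
    rw [Set.ncard_coe_finset] at hcard
    have h1 : (P.ncard : ℝ) ≤ T.card := by exact_mod_cast hcard
    exact h1.trans hTc

end Pool.Agent.Helper12.GM
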